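import Pool.Agent.H22.Rec.Linear

set_option autoImplicit false

/-! Growth of the Recaman sequence, number of subtractions, number of distinct terms. -/

namespace Pool.Agent.H22.Rec

open Finset

variable {a : ℕ → ℕ}

lemma le_sq (h : IsRecaman a) (n : ℕ) : a n ≤ n ^ 2 := by
  induction n with
  | zero => simp [h.1]
  | succ n ih =>
    rcases cases_step h n with ⟨h1, -, -⟩ | ⟨-, h1, -⟩ <;> nlinarith

/-- From the window inequality to a quadratic bound. -/
lemma quad (h : IsRecaman a) {L G : ℕ} (hG : ∀ N J, N ≤ L → SW N J → J N ≤ G) {A : ℝ}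
    (hA : (G : ℝ) + 2 < 2 * A * L) : ∃ C : ℝ, 0 ≤ C ∧ ∀ n : ℕ, (a n : ℝ) ≤ A * n ^ 2 + C := by
  have hG0 : (0 : ℝ) ≤ G := Nat.cast_nonneg _
  have hL0 : (0 : ℝ) < L := by
    rcases Nat.eq_zero_or_pos L with h0 | h0
    · subst h0; simp at hA; linarith
    · exact_mod_cast h0
  have hA0 : 0 < A := by
    by_contra hneg
    have : 2 * A * L ≤ 0 := by nlinarith [not_lt.1 hneg]
    linarith
  obtain ⟨d, hd⟩ : ∃ d : ℝ, d = 2 * A * L - (G + 2) := ⟨_, rfl⟩
  have hd0 : 0 < d := by rw [hd]; linarith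
  obtain ⟨N₁, hN₁⟩ := exists_nat_gt ((A * L ^ 2 + L * (L + 1)) / d)
  obtain ⟨N₀, hN₀⟩ : ∃ N₀, N₀ = max N₁ (L * (L + 1) + 1 + L) := ⟨_, rfl⟩
  refine ⟨(N₀ : ℝ) ^ 2, by positivity, ?_⟩
  intro n
  induction n using Nat.strong_induction_on with
  | _ n ih =>
    rcases Nat.lt_or_ge N₀ n with hn | hn
    · have hn1 : L * (L + 1) + 1 + L < n := lt_of_le_of_lt (by rw [hN₀]; exact le_max_right _ _) hn
      have hn2 : (N₁ : ℝ) < n := by
        have : N₁ < n := lt_of_le_of_lt (by rw [hN₀]; exact le_max_left _ _) hn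
        exact_mod_cast this
      obtain ⟨m, hm, hbd⟩ := window h hG hn1
      have hLn : 0 < L := by exact_mod_cast hL0
      have h1 := ih m (by omega)
      have h2 : (a n : ℝ) ≤ a m + n * (G + 2) + L * (L + 1) := by exact_mod_cast hbd
      have h3 : (m : ℝ) ≤ n - L := by
        have : ((m + L : ℕ) : ℝ) ≤ n := by exact_mod_cast hm
        push_cast at this
        linarith
      have h4 : (m : ℝ) ^ 2 ≤ (n - L) ^ 2 := by
        have : (0 : ℝ) ≤ m := Nat.cast_nonneg _
        exact pow_le_pow_left₀ this h3 2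
      have h5 : A * L ^ 2 + L * (L + 1) < d * n := by
        have h6 : (A * L ^ 2 + L * (L + 1)) / d < n := lt_trans hN₁ hn2
        rw [div_lt_iff₀ hd0] at h6
        linarith
      have h7 : A * (m : ℝ) ^ 2 ≤ A * (n - L) ^ 2 := mul_le_mul_of_nonneg_left h4 hA0.le
      rw [hd] at h5
      nlinarith
    · have h1 : (a n : ℝ) ≤ (n : ℝ) ^ 2 := by exact_mod_cast le_sq h n
      have h2 : (n : ℝ) ^ 2 ≤ (N₀ : ℝ) ^ 2 := by
        have : (n : ℝ) ≤ N₀ := by exact_mod_cast hn
        exact pow_le_pow_left₀ (Nat.cast_nonneg _) this 2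
      have h3 : 0 ≤ A * (n : ℝ) ^ 2 := by positivity
      linarith

/-- From a quadratic bound for the terms to a linear bound for the levels. -/
lemma lev_linear (h : IsRecaman a) {A C : ℝ} (hA : 0 < A) (hC : 0 ≤ C)
    (hq : ∀ n : ℕ, (a n : ℝ) ≤ A * n ^ 2 + C) (n : ℕ) : (lev a n : ℝ) ≤ 2 * A * n + C / A := by
  have hCA : 0 ≤ C / A := by positivity
  induction n using Nat.strong_induction_on with
  | _ n ih =>
    have hv : (n : ℝ) * lev a n = a n + ∑ l ∈ range n, (lev a l : ℝ) := by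
      have := val h n
      have h1 : ((a n : ℤ) : ℝ) = ((n * lev a n - ∑ l ∈ range n, lev a l : ℤ) : ℝ) := by rw [this]
      push_cast at h1
      linarith
    rcases le_or_gt (n : ℝ) (C / A) with hn | hn
    · have h1 := (abs_le.1 (lev_le h 0 n)).2
      have h2 : lev a 0 = 0 := by simp [lev]
      rw [zero_add, h2, sub_zero] at h1
      have h3 : (lev a n : ℝ) ≤ n := by exact_mod_cast h1
      have h4 : 0 ≤ 2 * A * n := by positivity
      linarith
    · have hn0 : (0 : ℝ) < n := lt_of_le_of_lt hCA hn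
      have hsum : ∑ l ∈ range n, (lev a l : ℝ) ≤ ∑ l ∈ range n, (2 * A * l + C / A) :=
        sum_le_sum fun l hl => ih l (mem_range.1 hl)
      have hsum2 : ∑ l ∈ range n, (2 * A * (l : ℝ) + C / A) = A * (n * (n - 1)) + n * (C / A) := by
        rw [sum_add_distrib, ← mul_sum]
        have hg : ∑ l ∈ range n, (l : ℝ) = n * (n - 1) / 2 := by
          have := Finset.sum_range_id_mul_two n
          have h5 : ((∑ l ∈ range n, l) * 2 : ℕ) = n * (n - 1) := this
          have h6 : 1 ≤ n := by exact_mod_cast hn0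
          have h7 : ((∑ l ∈ range n, (l : ℝ)) * 2) = n * ((n : ℝ) - 1) := by
            have h8 : (((∑ l ∈ range n, l) * 2 : ℕ) : ℝ) = ((n * (n - 1) : ℕ) : ℝ) := by rw [h5]
            rw [Nat.cast_mul, Nat.cast_mul, Nat.cast_sub h6] at h8
            push_cast at h8
            exact h8
          linarith
        rw [hg]
        simp only [sum_const, card_range, nsmul_eq_mul]
        ring
      have hCn : C ≤ A * n := by
        rw [div_lt_iff₀ hA] at hn
        linarith
      have hfin : (n : ℝ) * lev a n ≤ n * (2 * A * n + C / A) := by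
        rw [hv]
        have := hq n
        nlinarith
      exact le_of_mul_le_mul_left hfin hn0

/-- The number of subtractions among the first `n` steps. -/
def subs (a : ℕ → ℕ) (n : ℕ) : ℕ := ((range n).filter fun i => a (i + 1) < a i).card

lemma lev_subs (h : IsRecaman a) (n : ℕ) : lev a n = n - 2 * subs a n := by
  induction n with
  | zero => simp [lev, subs]
  | succ n ih =>
    rw [subs, range_add_one, filter_insert]
    rw [subs] at ih
    rcases cases_step h n with ⟨h1, h2, -⟩ | ⟨h1, h2, h3⟩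
    · rw [if_neg (by omega), h2, ih]
      push_cast
      ring
    · rw [if_pos (by omega), h3, ih, card_insert_of_notMem (by simp)]
      push_cast
      ring

lemma sub_new (h : IsRecaman a) {i : ℕ} (hi : a (i + 1) < a i) : ∀ j ≤ i, a j ≠ a (i + 1) := by
  have hn := h.2 i
  split_ifs at hn with hc
  · intro j hj hja
    apply hc.2
    rw [← hn, ← hja]
    exact Finset.mem_image.2 ⟨j, Finset.mem_range.2 (by omega), rfl⟩
  · omega

lemma subs_le_image (h : IsRecaman a) (n : ℕ) : subs a n ≤ ((range (n + 1)).image a).card := by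
  rw [subs]
  apply card_le_card_of_injOn (fun i => a (i + 1))
  · intro i hi
    have hi' := mem_range.1 (mem_filter.1 (mem_coe.1 hi)).1
    exact mem_coe.2 (mem_image.2 ⟨i + 1, mem_range.2 (by omega), rfl⟩)
  · intro i hi j hj hij
    have hi' := (mem_filter.1 (mem_coe.1 hi)).2
    have hj' := (mem_filter.1 (mem_coe.1 hj)).2
    rcases Nat.lt_trichotomy i j with h1 | h1 | h1
    · exact absurd hij (sub_new h hj' (i + 1) (by omega))
    · exact h1
    · exact absurd hij.symm (sub_new h hi' (j + 1) (by omega))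

/-- Main theorem. -/
theorem main (h : IsRecaman a) {ε : ℝ} (hε : 0 < ε) : ∃ C : ℝ, ∀ n : ℕ,
    (a n : ℝ) ≤ (1 / 11 + ε) * n ^ 2 + C ∧
    (9 / 22 - ε) * n - C ≤ subs a n ∧
    (9 / 22 - ε) * n - C ≤ ((range (n + 1)).image a).card := by
  obtain ⟨q, hq⟩ := exists_nat_gt (5 / (44 * ε))
  have hq' : 5 < 44 * ε * q := by
    rw [div_lt_iff₀ (by positivity)] at hq
    linarith
  have hG : ∀ N J, N ≤ 22 * q → SW N J → J N ≤ ((4 * q + 3 : ℕ) : ℤ) := by
    intro N J hN hSW
    by_contra hlt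
    have h1 : ((4 * (q + 1 : ℕ) : ℕ) : ℤ) ≤ J N := by
      push_cast at hlt ⊢
      omega
    have h2 := linear (q + 1) hSW (by exact_mod_cast h1)
    omega
  obtain ⟨A, hA⟩ : ∃ A : ℝ, A = 1 / 11 + ε := ⟨_, rfl⟩
  have hA0 : 0 < A := by rw [hA]; positivity
  obtain ⟨C, hC, hquad⟩ := quad h hG (A := A) (by
    push_cast
    rw [hA]
    nlinarith)
  refine ⟨C + C / A, fun n => ?_⟩
  have hCA : 0 ≤ C / A := by positivity
  have h1 := hquad n
  have h2 := lev_linear h hA0 hC hquad n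
  have h3 : (lev a n : ℝ) = n - 2 * subs a n := by
    have := lev_subs h n
    have h4 : ((lev a n : ℤ) : ℝ) = ((n - 2 * subs a n : ℤ) : ℝ) := by rw [this]
    push_cast at h4
    exact h4
  have h5 : (9 / 22 - ε) * n - (C + C / A) ≤ subs a n := by
    rw [h3] at h2
    rw [hA] at h2
    have : (0 : ℝ) ≤ n := Nat.cast_nonneg _
    rw [← hA] at h2
    have hA2 : 2 * A * n = (2 / 11 + 2 * ε) * n := by rw [hA]; ring
    rw [hA2] at h2
    linarith
  refine ⟨?_, h5, ?_⟩
  · rw [← hA]; linarith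
  · have h6 : (subs a n : ℝ) ≤ ((range (n + 1)).image a).card := by
      exact_mod_cast subs_le_image h n
    linarith

/-- At least `(4/3) √x - C` of the integers in `[0, x]` are terms. -/
theorem attained (h : IsRecaman a) : ∃ C : ℝ, ∀ x : ℕ,
    4 / 3 * √(x : ℝ) - C ≤ ({v : ℕ | v ≤ x ∧ ∃ n, a n = v}.ncard : ℝ) := by
  obtain ⟨C, hC⟩ := main h (ε := 1 / 1000) (by norm_num)
  have hC0 : 0 ≤ C := by
    have h1 := (hC 0).1
    have h2 : (0 : ℝ) ≤ a 0 := Nat.cast_nonneg _
    simp at h1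
    linarith
  refine ⟨4 / 3 * √C + 1 + C, fun x => ?_⟩
  rcases lt_or_ge (x : ℝ) C with hx | hx
  · have h1 : √(x : ℝ) ≤ √C := Real.sqrt_le_sqrt hx.le
    have h2 : (0 : ℝ) ≤ ({v : ℕ | v ≤ x ∧ ∃ n, a n = v}.ncard : ℝ) := Nat.cast_nonneg _
    linarith
  · obtain ⟨A, hA⟩ : ∃ A : ℝ, A = 1 / 11 + 1 / 1000 := ⟨_, rfl⟩
    have hA0 : 0 < A := by rw [hA]; norm_num
    obtain ⟨y, hy⟩ : ∃ y : ℝ, y = √((x - C) / A) := ⟨_, rfl⟩
    have hy0 : 0 ≤ y := by rw [hy]; exact Real.sqrt_nonneg _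
    have hy2 : y ^ 2 = (x - C) / A := by
      rw [hy]; exact Real.sq_sqrt (div_nonneg (by linarith) hA0.le)
    have hfl := Nat.floor_le hy0
    have hfl2 := Nat.lt_floor_add_one y
    obtain ⟨n, hn⟩ : ∃ n, n = ⌊y⌋₊ := ⟨_, rfl⟩
    rw [← hn] at hfl hfl2
    have hAn : A * (n : ℝ) ^ 2 + C ≤ x := by
      have h1 : (n : ℝ) ^ 2 ≤ y ^ 2 := pow_le_pow_left₀ (Nat.cast_nonneg _) hfl 2
      have h2 : A * (n : ℝ) ^ 2 ≤ A * y ^ 2 := mul_le_mul_of_nonneg_left h1 hA0.le
      rw [hy2, mul_div_cancel₀ _ hA0.ne'] at h2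
      linarith
    have hsub : (((range (n + 1)).image a : Finset ℕ) : Set ℕ) ⊆ {v : ℕ | v ≤ x ∧ ∃ n, a n = v} := by
      intro v hv
      obtain ⟨i, hi, rfl⟩ := mem_image.1 (mem_coe.1 hv)
      refine ⟨?_, i, rfl⟩
      have h1 := (hC i).1
      rw [← hA] at h1
      have h2 : (i : ℝ) ≤ n := by
        have := mem_range.1 hi
        exact_mod_cast (by omega : i ≤ n)
      have h3 : (i : ℝ) ^ 2 ≤ (n : ℝ) ^ 2 := pow_le_pow_left₀ (Nat.cast_nonneg _) h2 2
      have h4 : A * (i : ℝ) ^ 2 ≤ A * (n : ℝ) ^ 2 := mul_le_mul_of_nonneg_left h3 hA0.le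
      have h5 : (a i : ℝ) ≤ x := by linarith
      exact_mod_cast h5
    have hcard : (((range (n + 1)).image a).card : ℝ) ≤
        ({v : ℕ | v ≤ x ∧ ∃ n, a n = v}.ncard : ℝ) := by
      have hfin : {v : ℕ | v ≤ x ∧ ∃ n, a n = v}.Finite :=
        (Set.finite_Iic x).subset fun v hv => hv.1
      have h1 := Set.ncard_le_ncard hsub hfin
      rw [Set.ncard_coe_finset] at h1
      exact_mod_cast h1
    have h3 := (hC n).2.2
    have hkey : 4 / 3 * (√(x : ℝ) - √C) ≤ (9 / 22 - 1 / 1000) * y := by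
      have h4 : (√(x : ℝ) - √C) ^ 2 ≤ x - C := by
        have h5 := Real.sq_sqrt (Nat.cast_nonneg x : (0 : ℝ) ≤ x)
        have h6 := Real.sq_sqrt hC0
        have h7 : √C ≤ √(x : ℝ) := Real.sqrt_le_sqrt hx
        nlinarith [Real.sqrt_nonneg C]
      have h8 : x - C = A * y ^ 2 := by rw [hy2, mul_div_cancel₀ _ hA0.ne']
      have h9 : 0 ≤ (9 / 22 - 1 / 1000) * y := by
        apply mul_nonneg _ hy0
        norm_num
      refine (abs_le_of_sq_le_sq' ?_ h9).2
      have h10 : (4 / 3 * (√(x : ℝ) - √C)) ^ 2 ≤ (16 / 9) * (A * y ^ 2) := by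
        rw [← h8]
        nlinarith
      have h11 : (16 / 9) * (A * y ^ 2) ≤ ((9 / 22 - 1 / 1000) * y) ^ 2 := by
        rw [hA]
        have : 0 ≤ y ^ 2 := sq_nonneg y
        nlinarith
      linarith
    have h12 : (9 / 22 - 1 / 1000) * y ≤ (9 / 22 - 1 / 1000) * n + 1 := by
      nlinarith
    linarith

end Pool.Agent.H22.Rec
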