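import Mathlib

set_option autoImplicit false

/-! Exhaustive search: no supported walk of length `≤ 21` reaches level `4` (kernel computation). -/

namespace Pool.Agent.H22.Rec

/-- `supAux c P Q l`: some member `x` of `l` equals `c`, and `P + (members before x)` equals
`Q + c * (number of members before x)`. -/
def supAux (c : ℕ) : ℕ → ℕ → List ℕ → Bool
  | _, _, [] => false
  | P, Q, x :: xs => (Nat.beq x c && Nat.beq P Q) || supAux c (P + x) (Q + c) xs

/-- Depth-first search over the supported walks (levels shifted by `64`, most recent first). -/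
def dfs : ℕ → List ℕ → Bool
  | _, [] => true
  | 0, x :: _ => Nat.ble 68 x
  | n + 1, x :: xs =>
    Nat.ble 68 x || (Nat.ble 68 (x + (n + 1)) &&
      (dfs n ((x - 1) :: x :: xs) ||
        ((Nat.ble x 64 || supAux (x - 1) x (x - 1) xs) && dfs n ((x + 1) :: x :: xs))))

theorem dfs_21 : dfs 21 [64] = false := by decide +kernel

end Pool.Agent.H22.Rec
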