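import Pool.Agent.H22.Rec.Reduction
import Pool.Agent.H22.Rec.Search

set_option autoImplicit false

/-! Supported walks climb at most `4` levels in `22` steps. -/

namespace Pool.Agent.H22.Rec

open Finset

/-- The levels `J k, J (k-1), .., J 0`, shifted by `64`. -/
def enc (J : ℕ → ℤ) : ℕ → List ℕ
  | 0 => [(J 0 + 64).toNat]
  | k + 1 => (J (k + 1) + 64).toNat :: enc J k

lemma SW.bd {N : ℕ} {J : ℕ → ℤ} (h : SW N J) : ∀ l ≤ N, |J l| ≤ l := by
  intro l
  induction l with
  | zero => intro _; simp [h.zero]
  | succ l ih =>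
    intro hl
    have h1 := abs_le.1 (ih (by omega))
    rw [abs_le]
    push_cast
    rcases h.step l (by omega) with h2 | h2 <;> rw [h2] <;> constructor <;> linarith [h1.1, h1.2]

lemma SW.rise {N : ℕ} {J : ℕ → ℤ} (h : SW N J) : ∀ k i, k + i ≤ N → J (k + i) ≤ J k + i := by
  intro k i
  induction i with
  | zero => intro _; simp
  | succ i ih =>
    intro hi
    have h1 := ih (by omega)
    rw [← add_assoc]
    push_cast
    rcases h.step (k + i) (by omega) with h2 | h2 <;> rw [h2] <;> linarith

lemma SW.restrict {N M : ℕ} {J : ℕ → ℤ} (h : SW N J) (hM : M ≤ N) : SW M J :=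
  ⟨h.zero, fun k hk => h.step k (by omega), fun k hk => h.sup k (by omega)⟩

lemma SW.first {N : ℕ} {J : ℕ → ℤ} (h : SW N J) {c : ℤ} (hc : 0 ≤ c) (hN : c ≤ J N) :
    ∃ p ≤ N, J p = c ∧ ∀ q < p, J q < c := by
  classical
  have hex : ∃ i, c ≤ J i := ⟨N, hN⟩
  obtain ⟨p, hp⟩ : ∃ p, p = Nat.find hex := ⟨_, rfl⟩
  have hp1 : c ≤ J p := by rw [hp]; exact Nat.find_spec hex
  have hpmin : ∀ q < p, J q < c := by
    intro q hq
    rw [hp] at hq
    exact not_le.1 (Nat.find_min hex hq)
  have hpN : p ≤ N := by rw [hp]; exact Nat.find_min' hex hN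
  refine ⟨p, hpN, ?_, hpmin⟩
  rcases Nat.eq_zero_or_pos p with h0 | h0
  · subst h0
    rw [h.zero] at hp1 ⊢
    omega
  · obtain ⟨q, rfl⟩ := Nat.exists_eq_succ_of_ne_zero h0.ne'
    have h3 := hpmin q (Nat.lt_succ_self q)
    rw [Nat.succ_eq_add_one] at hp1 ⊢
    rcases h.step q (by omega) with h4 | h4 <;> rw [h4] at hp1 ⊢ <;> omega

lemma SW.shift {N p : ℕ} {J : ℕ → ℤ} (h : SW N J) {c : ℤ} (hc : 0 ≤ c) (hp : p ≤ N) (hpc : J p = c)
    (hmin : ∀ q < p, J q < c) : SW (N - p) (fun l => J (p + l) - c) := by
  refine ⟨?_, ?_, ?_⟩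
  · simp [hpc]
  · intro k hk
    have h1 := h.step (p + k) (by omega)
    change J (p + (k + 1)) - c = J (p + k) - c + 1 ∨ J (p + (k + 1)) - c = J (p + k) - c - 1
    rw [← add_assoc]
    rcases h1 with h1 | h1 <;> rw [h1]
    · left; ring
    · right; ring
  · intro k hk h1 h2
    change 1 ≤ J (p + k) - c at h1
    change J (p + (k + 1)) - c = J (p + k) - c + 1 at h2
    obtain ⟨s, hs, hs1, hs2⟩ := h.sup (p + k) (by omega) (by omega) (by rw [← add_assoc] at h2; omega)
    have hps : p ≤ s := by
      by_contra hlt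
      have := hmin s (by omega)
      omega
    obtain ⟨t, rfl⟩ := Nat.exists_eq_add_of_le hps
    refine ⟨t, by omega, by omega, ?_⟩
    rw [← hs2]
    have h7 : p + k - (p + t) = k - t := by omega
    rw [h7]
    apply sum_congr rfl
    intro l _
    have h8 : p + (t + 1 + l) = p + t + 1 + l := by omega
    rw [h8]
    ring

lemma supAux_true (J : ℕ → ℤ) (c : ℕ) : ∀ (m s P Q : ℕ), (∀ l ≤ m, 0 ≤ J l + 64) → s ≤ m →
    J s + 64 = c → (P : ℤ) + ∑ l ∈ range (m - s), (J (s + 1 + l) + 64) = Q + c * ((m - s : ℕ) : ℤ) →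
    supAux c P Q (enc J m) = true := by
  intro m
  induction m with
  | zero =>
    intro s P Q h0 hs hc hsum
    have hs0 : s = 0 := by omega
    subst hs0
    have h1 : (J 0 + 64).toNat = c := by omega
    have h2 : P = Q := by
      simp at hsum
      exact_mod_cast hsum
    simp [enc, supAux, h1, h2, Nat.beq_refl]
  | succ m ih =>
    intro s P Q h0 hs hc hsum
    rw [enc, supAux]
    rcases Nat.lt_or_ge m s with hlt | hge
    · have hs1 : s = m + 1 := by omega
      subst hs1
      have h1 : (J (m + 1) + 64).toNat = c := by omega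
      have h2 : P = Q := by
        simp at hsum
        exact_mod_cast hsum
      simp [h1, h2, Nat.beq_refl]
    · have h3 : m + 1 - s = (m - s) + 1 := by omega
      rw [h3, sum_range_succ] at hsum
      have h4 : s + 1 + (m - s) = m + 1 := by omega
      rw [h4] at hsum
      have h5 := h0 (m + 1) le_rfl
      have h6 : (((J (m + 1) + 64).toNat : ℕ) : ℤ) = J (m + 1) + 64 := Int.toNat_of_nonneg h5
      have h7 := ih s (P + (J (m + 1) + 64).toNat) (Q + c) (fun l hl => h0 l (by omega)) hge hc (by
        push_cast at hsum ⊢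
        rw [h6]
        linarith)
      rw [h7, Bool.or_true]

lemma dfs_true (n : ℕ) : ∀ (J : ℕ → ℤ) (N k : ℕ), SW N J → k ≤ N → N ≤ k + n → J N = 4 → N ≤ 60 →
    dfs n (enc J k) = true := by
  induction n with
  | zero =>
    intro J N k _ hk hN h4 _
    have hkN : k = N := by omega
    subst hkN
    cases k with
    | zero => simp [enc, dfs, h4]
    | succ k => simp [enc, dfs, h4]
  | succ n ih =>
    intro J N k hSW hk hN h4 h60
    have hbd : ∀ l ≤ N, 0 ≤ J l + 64 := by
      intro l hl
      have h1 := abs_le.1 (hSW.bd l hl)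
      have h2 : (l : ℤ) ≤ 60 := by exact_mod_cast le_trans hl h60
      linarith [h1.1]
    have h5 := hbd k hk
    obtain ⟨x, hx⟩ : ∃ x, x = (J k + 64).toNat := ⟨_, rfl⟩
    have hx' : (x : ℤ) = J k + 64 := by rw [hx]; exact Int.toNat_of_nonneg h5
    obtain ⟨xs, hxs, hxs'⟩ : ∃ xs, enc J k = x :: xs ∧ ∀ k', k = k' + 1 → xs = enc J k' := by
      cases k with
      | zero => exact ⟨[], by simp [enc, hx], by intro k' hk'; omega⟩
      | succ k => exact ⟨enc J k, by simp [enc, hx], by intro k' hk'; simp at hk'; rw [hk']⟩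
    rw [hxs, dfs]
    rcases Nat.eq_or_lt_of_le hk with hkN | hkN
    · subst hkN
      have : x = 68 := by omega
      simp [this]
    · have hrise := hSW.rise k (N - k) (by omega)
      have h6 : k + (N - k) = N := by omega
      rw [h6, h4] at hrise
      have h7 : Nat.ble 68 (x + (n + 1)) = true := by
        rw [Nat.ble_eq]
        have : ((N - k : ℕ) : ℤ) ≤ n + 1 := by
          have : N - k ≤ n + 1 := by omega
          exact_mod_cast this
        omega
      rw [h7, Bool.true_and]
      have hnext := hbd (k + 1) (by omega)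
      have hcons : enc J (k + 1) = (J (k + 1) + 64).toNat :: x :: xs := by rw [enc, hxs]
      have hrec := ih J N (k + 1) hSW (by omega) (by omega) h4 h60
      rw [hcons] at hrec
      rcases hSW.step k hkN with hup | hdown
      · have h8 : (J (k + 1) + 64).toNat = x + 1 := by omega
        rw [h8] at hrec
        rw [hrec, Bool.and_true]
        have h9 : (Nat.ble x 64 || supAux (x - 1) x (x - 1) xs) = true := by
          rcases le_or_gt (J k) 0 with h10 | h10
          · have : Nat.ble x 64 = true := by rw [Nat.ble_eq]; omega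
            rw [this, Bool.true_or]
          · obtain ⟨s, hs, hs1, hs2⟩ := hSW.sup k hkN (by omega) hup
            obtain ⟨k', rfl⟩ := Nat.exists_eq_succ_of_ne_zero (by omega : k ≠ 0)
            rw [Nat.succ_eq_add_one] at *
            have hxs2 := hxs' k' rfl
            have h11 : ((x - 1 : ℕ) : ℤ) = J (k' + 1) - 1 + 64 := by omega
            have h12 : supAux (x - 1) x (x - 1) xs = true := by
              rw [hxs2]
              refine supAux_true J (x - 1) k' s x (x - 1) (fun l hl => hbd l (by omega)) (by omega)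
                (by rw [h11, hs1]) ?_
              have h13 : k' + 1 - s = (k' - s) + 1 := by omega
              rw [h13, sum_range_succ] at hs2
              have h14 : s + 1 + (k' - s) = k' + 1 := by omega
              rw [h14] at hs2
              have h15 : ∑ l ∈ range (k' - s), (J (s + 1 + l) + 64) =
                  ∑ l ∈ range (k' - s), (J (s + 1 + l) - (J (k' + 1) - 1)) +
                    ((x - 1 : ℕ) : ℤ) * ((k' - s : ℕ) : ℤ) := by
                rw [h11, sum_add_distrib, sum_sub_distrib]
                simp only [sum_const, card_range, nsmul_eq_mul]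
                ring
              rw [h15, h11]
              rw [hx']
              linarith
            rw [h12, Bool.or_true]
        rw [h9, Bool.or_true, Bool.or_true]
      · have h8 : (J (k + 1) + 64).toNat = x - 1 := by omega
        rw [h8] at hrec
        rw [hrec, Bool.true_or, Bool.or_true]

/-- No supported walk reaches level `4` in fewer than `22` steps. -/
theorem four_levels {N : ℕ} {J : ℕ → ℤ} (h : SW N J) (h4 : J N = 4) : 22 ≤ N := by
  by_contra hlt
  have h1 := dfs_true 21 J N 0 h (Nat.zero_le _) (by omega) h4 (by omega)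
  have h2 : enc J 0 = [64] := by simp [enc, h.zero]
  rw [h2, dfs_21] at h1
  exact absurd h1 (by decide)

/-- Linear bound: `4 q` levels need `22 q` steps. -/
theorem linear (q : ℕ) : ∀ {N : ℕ} {J : ℕ → ℤ}, SW N J → (4 * q : ℤ) ≤ J N → 22 * q ≤ N := by
  induction q with
  | zero => intro N J _ _; omega
  | succ q ih =>
    intro N J h hN
    push_cast at hN
    obtain ⟨p, hp, hp1, hp2⟩ := h.first (c := 4 * q) (by positivity) (by linarith)
    have h1 := ih (h.restrict hp) hp1.ge
    have h2 := h.shift (by positivity) hp hp1 hp2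
    obtain ⟨r, hr, hr1, -⟩ := h2.first (c := 4) (by norm_num) (by
      have : p + (N - p) = N := by omega
      simp only [this]
      linarith)
    have h3 := four_levels (h2.restrict hr) hr1
    omega

end Pool.Agent.H22.Rec
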