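import Mathlib

set_option autoImplicit false

/-!
From the Recaman sequence to walks all of whose up-steps from levels `≥ 1` are supported
(reduction found by helper15).
-/

namespace Pool.Agent.H22.Rec

open Finset

/-- `J` is, up to time `N`, a walk with steps `±1` from level `0` such that every up-step from a
level `m ≥ 1` is supported: there is an earlier time `s` at level `m - 1` such that the levels at the
times in `(s, k]` have mean `m - 1`. -/
structure SW (N : ℕ) (J : ℕ → ℤ) : Prop where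
  zero : J 0 = 0
  step : ∀ k < N, J (k + 1) = J k + 1 ∨ J (k + 1) = J k - 1
  sup : ∀ k < N, 1 ≤ J k → J (k + 1) = J k + 1 →
    ∃ s < k, J s = J k - 1 ∧ ∑ l ∈ range (k - s), (J (s + 1 + l) - (J k - 1)) = 0

/-- The Recaman sequence. -/
def IsRecaman (a : ℕ → ℕ) : Prop :=
  a 0 = 0 ∧ ∀ n : ℕ, a (n + 1) =
    if n + 1 < a n ∧ a n - (n + 1) ∉ Finset.image a (Finset.range (n + 1))
    then a n - (n + 1) else a n + (n + 1)

/-- Number of additions minus number of subtractions before time `n`. -/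
def lev (a : ℕ → ℕ) (n : ℕ) : ℤ :=
  ∑ i ∈ range n, (if a (i + 1) = a i + (i + 1) then 1 else -1)

section
variable {a : ℕ → ℕ}

lemma cases_step (h : IsRecaman a) (n : ℕ) :
    (a (n + 1) = a n + (n + 1) ∧ lev a (n + 1) = lev a n + 1 ∧
      (n + 1 < a n → ∃ j ≤ n, a j + (n + 1) = a n)) ∨
    (n + 1 < a n ∧ a (n + 1) + (n + 1) = a n ∧ lev a (n + 1) = lev a n - 1) := by
  have hn := h.2 n
  split_ifs at hn with hc
  · right
    refine ⟨hc.1, by omega, ?_⟩
    have h1 : a (n + 1) ≠ a n + (n + 1) := by omega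
    simp only [lev, sum_range_succ, if_neg h1]
    ring
  · left
    refine ⟨hn, ?_, ?_⟩
    · simp only [lev, sum_range_succ, if_pos hn]
    · intro hb
      rw [not_and, not_not] at hc
      obtain ⟨j, hj, hja⟩ := Finset.mem_image.1 (hc hb)
      exact ⟨j, by have := Finset.mem_range.1 hj; omega, by omega⟩

lemma val (h : IsRecaman a) (n : ℕ) : (a n : ℤ) = n * lev a n - ∑ l ∈ range n, lev a l := by
  induction n with
  | zero => simp [h.1]
  | succ n ih =>
    rw [sum_range_succ]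
    rcases cases_step h n with ⟨h1, h2, -⟩ | ⟨-, h1, h2⟩
    · rw [h1, h2]
      push_cast
      rw [ih]
      ring
    · have h3 : (a (n + 1) : ℤ) = a n - (n + 1) := by
        have : ((a (n + 1) + (n + 1) : ℕ) : ℤ) = (a n : ℤ) := by exact_mod_cast h1
        push_cast at this
        linarith
      rw [h3, h2, ih]
      push_cast
      ring

lemma diff (h : IsRecaman a) (c : ℤ) (m i : ℕ) :
    (a (m + i) : ℤ) - a m = (m + i) * (lev a (m + i) - c) - m * (lev a m - c)
      - ∑ l ∈ range i, (lev a (m + l) - c) := by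
  rw [val h, val h, sum_range_add]
  rw [sum_sub_distrib]
  simp only [sum_const, card_range, nsmul_eq_mul]
  push_cast
  ring

lemma lev_le (h : IsRecaman a) (m i : ℕ) : |lev a (m + i) - lev a m| ≤ i := by
  induction i with
  | zero => simp
  | succ i ih =>
    have h1 := cases_step h (m + i)
    rw [← add_assoc]
    rw [abs_le] at ih ⊢
    push_cast
    rcases h1 with ⟨-, h2, -⟩ | ⟨-, -, h2⟩ <;> rw [h2] <;> constructor <;> linarith [ih.1, ih.2]

/-- Bound for the sum of the levels relative to a level `c` with `|lev (m+i) - c| ≤ 1`. -/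
lemma sum_bd (h : IsRecaman a) {c : ℤ} {m i : ℕ} (hc : c = lev a (m + i) - 1) :
    |∑ l ∈ range i, (lev a (m + l) - c)| ≤ i * (i + 1) := by
  have h1 : ∀ l ∈ range i, |lev a (m + l) - c| ≤ i + 1 := by
    intro l hl
    have hl' := mem_range.1 hl
    have h2 := lev_le h (m + l) (i - l)
    have h3 : m + l + (i - l) = m + i := by omega
    rw [h3] at h2
    have h4 : ((i - l : ℕ) : ℤ) ≤ i := by
      have : (i - l : ℕ) ≤ i := Nat.sub_le _ _
      exact_mod_cast this
    rw [abs_le] at h2 ⊢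
    subst hc
    constructor <;> linarith [h2.1, h2.2]
  calc |∑ l ∈ range i, (lev a (m + l) - c)| ≤ ∑ l ∈ range i, |lev a (m + l) - c| :=
        abs_sum_le_sum_abs _ _
    _ ≤ ∑ l ∈ range i, ((i : ℤ) + 1) := sum_le_sum h1
    _ = i * (i + 1) := by simp [sum_const, card_range]

lemma supp (h : IsRecaman a) {k₀ L : ℕ} (hrec : ∀ i < k₀, a i < a k₀)
    (hL : L * (L + 1) + 1 < k₀) {i : ℕ} (hi : i ≤ L) (h2 : lev a k₀ + 2 ≤ lev a (k₀ + i))
    (hup : lev a (k₀ + i + 1) = lev a (k₀ + i) + 1) :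
    ∃ s < i, lev a (k₀ + s) = lev a (k₀ + i) - 1 ∧
      ∑ l ∈ range (i - s), (lev a (k₀ + s + 1 + l) - (lev a (k₀ + i) - 1)) = 0 := by
  have hiL : i * (i + 1) ≤ L * (L + 1) := Nat.mul_le_mul hi (by omega)
  have hiL' : (i : ℤ) * (i + 1) ≤ L * (L + 1) := by exact_mod_cast hiL
  have hL' : (L : ℤ) * (L + 1) + 1 < k₀ := by exact_mod_cast hL
  obtain ⟨c, hc⟩ : ∃ c, c = lev a (k₀ + i) - 1 := ⟨_, rfl⟩
  have hstep := cases_step h (k₀ + i)
  have hblock : k₀ + i + 1 < a (k₀ + i) → ∃ j ≤ k₀ + i, a j + (k₀ + i + 1) = a (k₀ + i) := by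
    rcases hstep with ⟨-, -, h3⟩ | ⟨-, -, h3⟩
    · exact h3
    · omega
  have hd := diff h c k₀ i
  have hb := abs_le.1 (sum_bd h (m := k₀) (i := i) hc)
  have hck : 1 ≤ c - lev a k₀ := by omega
  have hk0 : (k₀ : ℤ) ≤ k₀ * (c - lev a k₀) := by nlinarith
  have hbig : (a k₀ : ℤ) + (k₀ + i + 1) < a (k₀ + i) := by
    have h5 : lev a (k₀ + i) - c = 1 := by omega
    rw [h5] at hd
    nlinarith [hb.1, hb.2]
  obtain ⟨m, hm, hma⟩ := hblock (by
    have : (0 : ℤ) ≤ a k₀ := Int.natCast_nonneg _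
    have h6 : ((k₀ + i + 1 : ℕ) : ℤ) < a (k₀ + i) := by push_cast; linarith
    exact_mod_cast h6)
  have hmk : k₀ ≤ m := by
    by_contra hlt
    have h7 := hrec m (by omega)
    have h8 : ((a m + (k₀ + i + 1) : ℕ) : ℤ) = (a (k₀ + i) : ℤ) := by exact_mod_cast hma
    push_cast at h8
    have h9 : (a m : ℤ) < a k₀ := by exact_mod_cast h7
    linarith
  obtain ⟨s, rfl⟩ := Nat.exists_eq_add_of_le hmk
  have hsi : s < i := by
    rcases Nat.lt_or_ge s i with h9 | h9
    · exact h9
    · have : s = i := by omega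
      subst this
      omega
  obtain ⟨r, rfl⟩ := Nat.exists_eq_add_of_le (Nat.le_of_lt hsi)
  have hd2 := diff h c (k₀ + s) r
  have hc2 : c = lev a (k₀ + s + r) - 1 := by rw [hc, add_assoc]
  have hb2 := abs_le.1 (sum_bd h (m := k₀ + s) (i := r) hc2)
  have hr : (r : ℤ) * (r + 1) ≤ L * (L + 1) := by
    have : r * (r + 1) ≤ L * (L + 1) := Nat.mul_le_mul (by omega) (by omega)
    exact_mod_cast this
  have h8 : (a (k₀ + s) : ℤ) + (k₀ + (s + r) + 1) = a (k₀ + s + r) := by
    have : ((a (k₀ + s) + (k₀ + (s + r) + 1) : ℕ) : ℤ) = (a (k₀ + (s + r)) : ℤ) := by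
      exact_mod_cast hma
    push_cast at this
    rw [this, add_assoc]
  have h5 : lev a (k₀ + s + r) - c = 1 := by omega
  rw [h5] at hd2
  push_cast at hd2
  have hD : ((k₀ : ℤ) + s) * (lev a (k₀ + s) - c) =
      -1 - ∑ l ∈ range r, (lev a (k₀ + s + l) - c) := by linarith
  have hzero : lev a (k₀ + s) - c = 0 := by
    by_contra hne
    rcases lt_or_gt_of_ne hne with h10 | h10
    · have h11 : lev a (k₀ + s) - c ≤ -1 := by omega
      have h12 : ((k₀ : ℤ) + s) * (lev a (k₀ + s) - c) ≤ -(k₀ + s) := by nlinarith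
      have h13 : (0 : ℤ) ≤ s := Int.natCast_nonneg _
      linarith [hb2.1, hb2.2]
    · have h11 : 1 ≤ lev a (k₀ + s) - c := by omega
      have h12 : ((k₀ : ℤ) + s) ≤ ((k₀ : ℤ) + s) * (lev a (k₀ + s) - c) := by nlinarith
      have h13 : (0 : ℤ) ≤ s := Int.natCast_nonneg _
      linarith [hb2.1, hb2.2]
  refine ⟨s, hsi, by omega, ?_⟩
  have h14 : s + r - s = r := by omega
  rw [h14]
  have h15 : ∑ l ∈ range (r + 1), (lev a (k₀ + s + l) - c) = 0 := by
    rw [sum_range_succ, h5]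
    rw [hzero] at hD
    linarith
  rw [sum_range_succ'] at h15
  rw [add_zero, hzero, add_zero] at h15
  rw [← h15]
  apply sum_congr rfl
  intro l _
  have h16 : k₀ + s + 1 + l = k₀ + s + (l + 1) := by omega
  rw [h16, ← hc]

/-- In a window after a record the levels above the first one form a supported walk. -/
lemma walk (h : IsRecaman a) {k₀ L : ℕ} (hrec : ∀ i < k₀, a i < a k₀)
    (hL : L * (L + 1) + 1 < k₀) {i : ℕ} (hi : i ≤ L) (h1 : lev a k₀ + 1 ≤ lev a (k₀ + i)) :
    ∃ N J, N ≤ i ∧ SW N J ∧ J N = lev a (k₀ + i) - lev a k₀ - 1 := by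
  classical
  have hex : ∃ i, lev a k₀ + 1 ≤ lev a (k₀ + i) := ⟨i, h1⟩
  obtain ⟨p, hp⟩ : ∃ p, p = Nat.find hex := ⟨_, rfl⟩
  have hp1 : lev a k₀ + 1 ≤ lev a (k₀ + p) := by rw [hp]; exact Nat.find_spec hex
  have hpmin : ∀ q < p, lev a (k₀ + q) < lev a k₀ + 1 := by
    intro q hq
    rw [hp] at hq
    exact not_le.1 (Nat.find_min hex hq)
  have hpi : p ≤ i := by rw [hp]; exact Nat.find_min' hex h1
  have hp0 : p ≠ 0 := by
    rintro rfl
    rw [add_zero] at hp1
    linarith
  have hpeq : lev a (k₀ + p) = lev a k₀ + 1 := by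
    obtain ⟨q, rfl⟩ := Nat.exists_eq_succ_of_ne_zero hp0
    have h3 := hpmin q (Nat.lt_succ_self q)
    have h4 := cases_step h (k₀ + q)
    have h5 : k₀ + q.succ = k₀ + q + 1 := by omega
    rw [h5] at hp1 ⊢
    rcases h4 with ⟨-, h4, -⟩ | ⟨-, -, h4⟩ <;> rw [h4] at hp1 ⊢ <;> omega
  refine ⟨i - p, fun l => lev a (k₀ + p + l) - (lev a k₀ + 1), by omega, ⟨?_, ?_, ?_⟩, ?_⟩
  · simp [hpeq]
  · intro k _
    have h4 := cases_step h (k₀ + p + k)
    have h5 : k₀ + p + (k + 1) = k₀ + p + k + 1 := by omega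
    simp only [h5]
    rcases h4 with ⟨-, h4, -⟩ | ⟨-, -, h4⟩ <;> rw [h4]
    · left; ring
    · right; ring
  · intro k hk hk1 hkup
    have h5 : k₀ + p + (k + 1) = k₀ + (p + k) + 1 := by omega
    have h6 : k₀ + p + k = k₀ + (p + k) := by omega
    change 1 ≤ lev a (k₀ + p + k) - (lev a k₀ + 1) at hk1
    change lev a (k₀ + p + (k + 1)) - (lev a k₀ + 1) =
      lev a (k₀ + p + k) - (lev a k₀ + 1) + 1 at hkup
    change ∃ s < k, lev a (k₀ + p + s) - (lev a k₀ + 1) = lev a (k₀ + p + k) - (lev a k₀ + 1) - 1 ∧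
      ∑ l ∈ range (k - s), (lev a (k₀ + p + (s + 1 + l)) - (lev a k₀ + 1) -
        (lev a (k₀ + p + k) - (lev a k₀ + 1) - 1)) = 0
    rw [h6] at hk1
    rw [h5, h6] at hkup
    obtain ⟨s, hs, hs1, hs2⟩ := supp h hrec hL (i := p + k) (by omega) (by linarith) (by linarith)
    have hps : p ≤ s := by
      by_contra hlt
      have := hpmin s (by omega)
      linarith
    obtain ⟨t, rfl⟩ := Nat.exists_eq_add_of_le hps
    refine ⟨t, by omega, ?_, ?_⟩
    · rw [h6, add_assoc, hs1]
      ring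
    · rw [← hs2]
      have h7 : p + k - (p + t) = k - t := by omega
      rw [h7]
      apply sum_congr rfl
      intro l _
      have h8 : k₀ + p + (t + 1 + l) = k₀ + (p + t) + 1 + l := by omega
      rw [h8, h6]
      ring
  · have h9 : k₀ + p + (i - p) = k₀ + i := by omega
    simp only [h9]
    ring

/-- The growth inequality over a window of length `L`. -/
theorem window (h : IsRecaman a) {L G : ℕ} (hG : ∀ N J, N ≤ L → SW N J → J N ≤ G) {n : ℕ}
    (hn : L * (L + 1) + 1 + L < n) :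
    ∃ m, m + L ≤ n ∧ a n ≤ a m + n * (G + 2) + L * (L + 1) := by
  classical
  -- a maximiser of `a` on `[0, n - L]`
  obtain ⟨m, hm, hmax⟩ := Finset.exists_max_image (range (n - L + 1)) a ⟨0, by simp⟩
  have hm' : m + L ≤ n := by have := mem_range.1 hm; omega
  refine ⟨m, hm', ?_⟩
  by_cases hcase : a n ≤ a m
  · exact le_trans hcase (by rw [add_assoc]; exact Nat.le_add_right _ _)
  · have hex : ∃ i, a m < a i ∧ i ≤ n := ⟨n, not_le.1 hcase, le_rfl⟩
    obtain ⟨k, hk⟩ : ∃ k, k = Nat.find hex := ⟨_, rfl⟩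
    have hk1 : a m < a k ∧ k ≤ n := by rw [hk]; exact Nat.find_spec hex
    have hkmin : ∀ q < k, a q ≤ a m := by
      intro q hq
      have h1 := Nat.find_min hex (by rw [hk] at hq; exact hq)
      rw [not_and] at h1
      by_contra h2
      exact h1 (not_le.1 h2) (by omega)
    have hkL : n - L < k := by
      by_contra hlt
      have := hmax k (mem_range.2 (by omega))
      omega
    have hrec : ∀ i < k, a i < a k := fun i hi => lt_of_le_of_lt (hkmin i hi) hk1.1
    have hkup : a k ≤ a m + k := by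
      obtain ⟨q, rfl⟩ := Nat.exists_eq_succ_of_ne_zero (by omega : k ≠ 0)
      have h1 := hkmin q (Nat.lt_succ_self q)
      rcases cases_step h q with ⟨h2, -, -⟩ | ⟨-, h2, -⟩
      · rw [Nat.succ_eq_add_one, h2]; omega
      · rw [Nat.succ_eq_add_one]; omega
    obtain ⟨i, rfl⟩ := Nat.exists_eq_add_of_le hk1.2
    have hiL : i ≤ L := by omega
    have hkL2 : L * (L + 1) + 1 < k := by omega
    -- the levels
    have hlev : lev a (k + i) - lev a k ≤ G + 1 := by
      by_cases h1 : lev a k + 1 ≤ lev a (k + i)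
      · obtain ⟨N, J, hN, hSW, hJ⟩ := walk h hrec hkL2 hiL h1
        have := hG N J (by omega) hSW
        rw [hJ] at this
        linarith
      · have : (0 : ℤ) ≤ G := Int.natCast_nonneg _
        linarith [not_le.1 h1]
    have hd := diff h (lev a k) k i
    rw [sub_self, mul_zero, sub_zero] at hd
    have hs : -((i : ℤ) * (i + 1)) ≤ ∑ l ∈ range i, (lev a (k + l) - lev a k) := by
      have h1 : ∀ l ∈ range i, -((i : ℤ) + 1) ≤ lev a (k + l) - lev a k := by
        intro l hl
        have h2 := abs_le.1 (lev_le h k l)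
        have h3 : (l : ℤ) ≤ i := by exact_mod_cast (mem_range.1 hl).le
        linarith [h2.1]
      calc -((i : ℤ) * (i + 1)) = ∑ l ∈ range i, (-((i : ℤ) + 1)) := by
            simp [sum_const, card_range]; ring
        _ ≤ _ := sum_le_sum h1
    have hiL3 : (i : ℤ) * (i + 1) ≤ L * (L + 1) := by
      have : i * (i + 1) ≤ L * (L + 1) := Nat.mul_le_mul hiL (by omega)
      exact_mod_cast this
    have hk0 : (0 : ℤ) ≤ (k : ℤ) + i := by positivity
    have h6 : ((k : ℤ) + i) * (lev a (k + i) - lev a k) ≤ (k + i) * (G + 1) :=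
      mul_le_mul_of_nonneg_left hlev hk0
    have h7 : (a (k + i) : ℤ) ≤ a k + (k + i) * (G + 1) + L * (L + 1) := by linarith
    have h8 : (a k : ℤ) ≤ a m + k := by exact_mod_cast hkup
    have h9 : (a (k + i) : ℤ) ≤ a m + (k + i) * (G + 2) + L * (L + 1) := by
      have : (0 : ℤ) ≤ i := Int.natCast_nonneg _
      nlinarith
    exact_mod_cast h9

end

end Pool.Agent.H22.Rec
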